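import Mathlib
import Pool.Agent.Y214.CS.Main

/-!
Every rational point of a smooth cubic surface over a finite field lies on a rational curve
defined over that field.
-/

set_option autoImplicit false

namespace Pool.Agent.Results.MP_4f7796_ag.RationalCurveThroughPoint

open MvPolynomial

/-- Let `K` be a finite field, let `F` be a cubic form in four variables over `K` such that the
surface `F = 0` is smooth, that is, it has no singular point over the algebraic closure of `K`, and
let `x` be a `K`-rational point of the surface. Then there are binary forms `f 0, f 1, f 2, f 3` of
the same positive degree `e` over `K`, without a common zero over the algebraic closure, with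
`F (f) = 0`, such that the morphism from the projective line to the surface that they define
(nonconstant, because `e` is positive and the forms have no common zero) has `x` in its image. -/
theorem result {K : Type*} [Field K] [Finite K] (F : MvPolynomial (Fin 4) K)
    (hF : F.IsHomogeneous 3)
    (hsm : ∀ v : Fin 4 → AlgebraicClosure K, aeval v F = 0 → (∀ i, aeval v (pderiv i F) = 0) →
      v = 0)
    (x : Fin 4 → K) (hx0 : x ≠ 0) (hx : eval x F = 0) :
    ∃ (e : ℕ) (f : Fin 4 → MvPolynomial (Fin 2) K), 0 < e ∧ (∀ i, (f i).IsHomogeneous e) ∧
      (∀ p : Fin 2 → AlgebraicClosure K, (∀ i, aeval p (f i) = 0) → p = 0) ∧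
      aeval f F = 0 ∧
      ∃ (p : Fin 2 → AlgebraicClosure K) (c : AlgebraicClosure K), c ≠ 0 ∧
        ∀ i, aeval p (f i) = c * algebraMap K (AlgebraicClosure K) (x i) :=
  Pool.Agent.Y214.CS.exists_curve F hF hsm x hx0 hx

end Pool.Agent.Results.MP_4f7796_ag.RationalCurveThroughPoint
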